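import Pool.Agent.Y316.DS.Main

set_option autoImplicit false

open Set Pool.Agent.Y316.DS

/-- Disproof of Q1.  `T` is the triangulable locus of the stratum of dilation surfaces of genus two
with two cone points of angle `4π`.  It has a connected component which is not contained in the
closure of any `SL(2, ℝ)`-orbit. -/
theorem Pool.Agent.Results.MP_55f3b9_an.NoDenseOrbit.result :
    ∃ x₀ : T, ∀ y : T, ¬ connectedComponent x₀ ⊆
      closure (range fun A : Matrix.SpecialLinearGroup (Fin 2) ℝ => act A y) :=
  ⟨exT ⟨1, by norm_num⟩, fun y => not_dense _ y⟩
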